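import Mathlib

/-!
# MP_952e1b_co, Q2 for type I

For every `r ≥ 3` there is a partition of `ℕ` into `r` nonempty cells, none of which is an
exponential IP set of type I.  So Q2 has a negative answer for type I.
-/

namespace Pool.Agent.Results.MP_952e1b_co.TypeOneFails

/-- `FE^I_n(X)` for the increasing enumeration `x` of `X`, as in the problem file. -/
def FEI (x : ℕ → ℕ) : ℕ → Set ℕ
  | 0 => {x 0}
  | n + 1 => {z | ∃ y ∈ FEI x n, z = y ^ x (n + 1)} ∪ FEI x n ∪ {x (n + 1)}

/-- `C` is an exponential IP set of type I: it contains `FE^I(X) = ⋃ n, FE^I_n(X)` for some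
infinite `X ⊆ ℕ` (given by its increasing enumeration `x`). -/
def IsExpIPOne (C : Set ℕ) : Prop :=
  ∃ x : ℕ → ℕ, StrictMono x ∧ (⋃ n, FEI x n) ⊆ C

/-- The tower `4, 2^4, 2^(2^4), ...`. -/
def T : ℕ → ℕ
  | 0 => 4
  | k + 1 => 2 ^ T k

lemma T_succ (k : ℕ) : T (k + 1) = 2 ^ T k := rfl

lemma lt_T (k : ℕ) : k < T k := by
  induction k with
  | zero => simp [T]
  | succ k ih =>
    rw [T_succ]
    have : T k < 2 ^ T k := Nat.lt_two_pow_self
    omega

lemma T_strictMono : StrictMono T :=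
  strictMono_nat_of_lt_succ (fun k => by rw [T_succ]; exact Nat.lt_two_pow_self)

/-- The level of `n`: the number of tower values that are at most `n`. -/
def level (n : ℕ) : ℕ := ((Finset.range (n + 1)).filter (fun k => T k ≤ n)).card

lemma filter_eq (n m : ℕ) (h : ∀ k, T k ≤ n ↔ k < m) :
    (Finset.range (n + 1)).filter (fun k => T k ≤ n) = Finset.range m := by
  ext k
  simp only [Finset.mem_filter, Finset.mem_range]
  constructor
  · rintro ⟨_, h2⟩
    exact (h k).1 h2
  · intro hk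
    have h2 := (h k).2 hk
    have := lt_T k
    exact ⟨by omega, h2⟩

lemma level_spec (n : ℕ) : ∀ k, T k ≤ n ↔ k < level n := by
  have hex : ∃ m, n < T m := ⟨n, lt_T n⟩
  classical
  let m := Nat.find hex
  have hm : n < T m := Nat.find_spec hex
  have hk : ∀ k, T k ≤ n ↔ k < m := by
    intro k
    constructor
    · intro h
      by_contra hc
      push Not at hc
      have := T_strictMono.monotone hc
      omega
    · intro h
      have := Nat.find_min hex h
      omega
  have : level n = m := by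
    unfold level
    rw [filter_eq n m hk, Finset.card_range]
  rw [this]
  exact hk

lemma sq_le_two_pow (n : ℕ) (h : 4 ≤ n) : n ^ 2 ≤ 2 ^ n := by
  induction n, h using Nat.le_induction with
  | base => norm_num
  | succ n hn ih =>
    have : (n + 1) ^ 2 ≤ 2 * n ^ 2 := by nlinarith
    calc (n + 1) ^ 2 ≤ 2 * n ^ 2 := this
      _ ≤ 2 * 2 ^ n := by omega
      _ = 2 ^ (n + 1) := by ring

/-- The key separation: exponentiating by `b` a smaller base raises the level by one or two. -/
lemma level_pow {a b : ℕ} (ha : 2 ≤ a) (hab : a ≤ b) (hb : 4 ≤ b) :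
    level (a ^ b) = level b + 1 ∨ level (a ^ b) = level b + 2 := by
  have h0 : 0 < level b := (level_spec b 0).1 (by simpa [T] using hb)
  obtain ⟨k, hk⟩ : ∃ k, level b = k + 1 := ⟨level b - 1, by omega⟩
  have hlow : T k ≤ b := (level_spec b k).2 (by omega)
  have hup : b < T (k + 1) := by
    by_contra hc
    push Not at hc
    have := (level_spec b (k + 1)).1 hc
    omega
  have h1 : T (k + 1) ≤ a ^ b := by
    rw [T_succ]
    calc 2 ^ T k ≤ 2 ^ b := Nat.pow_le_pow_right (by norm_num) hlow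
      _ ≤ a ^ b := Nat.pow_le_pow_left ha b
  have h2 : a ^ b < T (k + 3) := by
    have e1 : a ^ b ≤ b ^ b := Nat.pow_le_pow_left hab b
    have e2 : b ^ b < (2 ^ b) ^ b := Nat.pow_lt_pow_left Nat.lt_two_pow_self (by omega)
    have e3 : (2 ^ b) ^ b = 2 ^ (b ^ 2) := by rw [← pow_mul, sq]
    have e4 : b ^ 2 ≤ 2 ^ b := sq_le_two_pow b hb
    have e5 : 2 ^ b ≤ 2 ^ T (k + 1) := Nat.pow_le_pow_right (by norm_num) hup.le
    have e6 : T (k + 3) = 2 ^ (2 ^ T (k + 1)) := rfl
    rw [e6]
    calc a ^ b ≤ b ^ b := e1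
      _ < (2 ^ b) ^ b := e2
      _ = 2 ^ (b ^ 2) := e3
      _ ≤ 2 ^ (2 ^ T (k + 1)) := Nat.pow_le_pow_right (by norm_num) (e4.trans e5)
  have h3 : k + 1 < level (a ^ b) := (level_spec _ _).1 h1
  have h4 : ¬ (k + 3 < level (a ^ b)) := by
    intro h
    have := (level_spec _ _).2 h
    omega
  omega

/-- The colouring. -/
def col (r : ℕ) (hr : 3 ≤ r) (n : ℕ) : Fin r :=
  if h : n < r then ⟨n, h⟩ else ⟨level n % 3, by omega⟩

lemma col_surj (r : ℕ) (hr : 3 ≤ r) : Function.Surjective (col r hr) := by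
  intro i
  refine ⟨i.1, ?_⟩
  simp [col, i.2]

lemma not_expIP (r : ℕ) (hr : 3 ≤ r) (i : Fin r) :
    ¬ IsExpIPOne {n | col r hr n = i} := by
  rintro ⟨x, hx, hsub⟩
  set m := r + 4 with hm
  have hxm : m ≤ x m := hx.le_apply
  have hlt : x m < x (m + 1) := hx (Nat.lt_succ_self m)
  have ha : x m ∈ FEI x m := by
    rw [hm]
    show x (r + 3 + 1) ∈ FEI x (r + 3 + 1)
    simp [FEI]
  have hb : x (m + 1) ∈ FEI x (m + 1) := by simp [FEI]
  have hab : x m ^ x (m + 1) ∈ FEI x (m + 1) := by
    simp only [FEI, Set.mem_union]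
    exact Or.inl (Or.inl ⟨x m, ha, rfl⟩)
  have cb : col r hr (x (m + 1)) = i := hsub (Set.mem_iUnion.2 ⟨m + 1, hb⟩)
  have cab : col r hr (x m ^ x (m + 1)) = i := hsub (Set.mem_iUnion.2 ⟨m + 1, hab⟩)
  have hpow : x (m + 1) < x m ^ x (m + 1) :=
    Nat.lt_pow_self (by omega)
  have n1 : ¬ (x (m + 1) < r) := by omega
  have n2 : ¬ (x m ^ x (m + 1) < r) := by omega
  have e := cb.trans cab.symm
  simp only [col, n1, n2, dif_neg, not_false_eq_true, Fin.mk.injEq] at e
  rcases level_pow (a := x m) (b := x (m + 1)) (by omega) hlt.le (by omega) with h | h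
  · rw [h] at e; omega
  · rw [h] at e; omega

/-- For every `r ≥ 3` there is a partition of `ℕ` into `r` nonempty cells (the fibres of a
surjection `c : ℕ → Fin r`) none of which is an exponential IP set of type I. -/
theorem result : ∀ r : ℕ, 3 ≤ r → ∃ c : ℕ → Fin r, Function.Surjective c ∧
    ∀ i : Fin r, ¬ IsExpIPOne {n | c n = i} :=
  fun r hr => ⟨col r hr, col_surj r hr, not_expIP r hr⟩

end Pool.Agent.Results.MP_952e1b_co.TypeOneFails
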